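import Pool.Agent.helper98.RPB.FI

set_option autoImplicit false

open MeasureTheory Matrix
open scoped BigOperators ComplexConjugate

namespace Pool.Agent.helper98.RPB

/-- The exceptional phases. -/
def BadPhases {D : ℕ} (W : Matrix (Fin D) (Fin D) ℂ) (l : ℕ) (ε : ℝ) (k : ℕ) :
    Set (Word D (k + 1) → ℝ) :=
  {θ | θ ∈ Set.Icc 0 1 ∧ ∃ ψ : Word D (k + 1) → ℂ, IsUnitEigenvector W θ ψ ∧
    ∃ (i : ℕ) (w : Word D l), i + l ≤ k + 1 ∧ ε ≤ |cylWeight ψ i w - (1 / (D : ℝ)) ^ l|}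

theorem ae_que (D : ℕ) (hD : 2 ≤ D) (W : Matrix (Fin D) (Fin D) ℂ)
    (hW : W ∈ Matrix.unitaryGroup (Fin D) ℂ) (h : IsMixing W)
    {Ω : Type} [MeasurableSpace Ω] (μ : Measure Ω)
    (Θ : ∀ k : ℕ, Ω → Word D (k + 1) → ℝ) (hΘ : ∀ k, Measurable (Θ k))
    (hlaw : ∀ k, μ.map (Θ k) = volume.restrict (Set.Icc 0 1)) :
    ∀ᵐ ω ∂μ, ∀ (l : ℕ) (ε : ℝ), 0 < ε → ∃ K : ℕ, ∀ k ≥ K, ∀ ψ : Word D (k + 1) → ℂ,
      IsUnitEigenvector W (Θ k ω) ψ → ∀ (i : ℕ) (w : Word D l), i + l ≤ k + 1 →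
        |cylWeight ψ i w - (1 / (D : ℝ)) ^ l| < ε := by
  have hcube : ∀ k, ∀ᵐ ω ∂μ, Θ k ω ∈ Set.Icc (0 : Word D (k + 1) → ℝ) 1 := by
    intro k
    have h1 : ∀ᵐ θ ∂(μ.map (Θ k)), θ ∈ Set.Icc (0 : Word D (k + 1) → ℝ) 1 := by
      rw [hlaw k]
      exact ae_restrict_mem measurableSet_Icc
    exact ae_of_ae_map (hΘ k).aemeasurable h1
  have hmain : ∀ (l : ℕ) (j : ℕ), ∀ᵐ ω ∂μ, ∀ᶠ k in Filter.atTop,
      Θ k ω ∉ BadPhases W l (1 / ((j : ℝ) + 1)) k := by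
    intro l j
    obtain ⟨c, hc, K, hK⟩ := mixing_que D hD W hW h l (1 / ((j : ℝ) + 1)) (by positivity)
    have hbd : ∀ k ≥ K, μ {ω | Θ k ω ∈ BadPhases W l (1 / ((j : ℝ) + 1)) k} ≤
        ENNReal.ofReal (Real.exp (-(c * k))) := by
      intro k hk
      set S := BadPhases W l (1 / ((j : ℝ) + 1)) k with hS
      calc μ {ω | Θ k ω ∈ S} ≤ μ ((Θ k) ⁻¹' (toMeasurable volume S)) :=
            measure_mono fun ω hω => subset_toMeasurable volume S hω
        _ = (μ.map (Θ k)) (toMeasurable volume S) :=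
            (Measure.map_apply (hΘ k) (measurableSet_toMeasurable volume S)).symm
        _ = (volume.restrict (Set.Icc 0 1)) (toMeasurable volume S) := by rw [hlaw k]
        _ ≤ volume (toMeasurable volume S) := Measure.restrict_apply_le _ _
        _ = volume S := measure_toMeasurable S
        _ ≤ ENNReal.ofReal (Real.exp (-(c * k))) := hK k hk
    have hsum : ∑' k : ℕ, μ {ω | Θ (k + K) ω ∈ BadPhases W l (1 / ((j : ℝ) + 1)) (k + K)} ≠ ⊤ := by
      refine ne_top_of_le_ne_top ?_ (ENNReal.tsum_le_tsum fun k => hbd (k + K) (by omega))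
      have hs : Summable fun k : ℕ => Real.exp (-(c * ((k + K : ℕ) : ℝ))) := by
        have h1 : Summable fun k : ℕ => Real.exp (-(c * (k : ℝ))) := by
          have h2 : Summable fun k : ℕ => (Real.exp (-c)) ^ k :=
            summable_geometric_of_lt_one (Real.exp_nonneg _) (by
              rw [Real.exp_lt_one_iff]; linarith)
          refine h2.congr fun k => ?_
          rw [← Real.exp_nat_mul]; ring_nf
        exact (summable_nat_add_iff K).mpr h1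
      rw [← ENNReal.ofReal_tsum_of_nonneg (fun k => Real.exp_nonneg _) hs]
      exact ENNReal.ofReal_ne_top
    have hbc := ae_eventually_notMem hsum
    filter_upwards [hbc] with ω hω
    rw [Filter.eventually_atTop] at hω ⊢
    obtain ⟨a, ha⟩ := hω
    refine ⟨a + K, fun k hk => ?_⟩
    have h1 := ha (k - K) (by omega)
    rw [Nat.sub_add_cancel (by omega)] at h1
    exact h1
  have hall : ∀ᵐ ω ∂μ, (∀ k, Θ k ω ∈ Set.Icc (0 : Word D (k + 1) → ℝ) 1) ∧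
      ∀ (l j : ℕ), ∀ᶠ k in Filter.atTop, Θ k ω ∉ BadPhases W l (1 / ((j : ℝ) + 1)) k := by
    rw [Filter.eventually_and]
    exact ⟨ae_all_iff.mpr hcube, ae_all_iff.mpr fun l => ae_all_iff.mpr fun j => hmain l j⟩
  filter_upwards [hall] with ω hω l ε hε
  obtain ⟨j, hj⟩ := exists_nat_one_div_lt hε
  obtain ⟨K, hK⟩ := Filter.eventually_atTop.mp (hω.2 l j)
  refine ⟨K, fun k hk ψ hψ i w hi => ?_⟩
  by_contra hge
  push Not at hge
  exact hK k hk ⟨hω.1 k, ψ, hψ, i, w, hi, le_trans hj.le hge⟩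

end Pool.Agent.helper98.RPB
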