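import Mathlib

/-!
# Tensor-product baker maps with diagonal phases

The quantum state space is `(ℂ ^ D) ^ {⊗ n}`, with its basis of words of length `n` over `D`
letters. The baker map shifts the letters by one position and applies the one-site matrix `W` to
the letter that leaves (`W` the discrete Fourier matrix: the Walsh-quantised baker map). It is
followed by the diagonal unitary with entries `exp (2 π i θ x)`.
-/

set_option autoImplicit false

open scoped BigOperators ComplexConjugate

namespace Pool.Agent.helper98.RPB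

/-- Words of length `n` over `D` letters. -/
abbrev Word (D n : ℕ) : Type := Fin n → Fin D

/-- The baker map on `(ℂ ^ D) ^ {⊗ (k + 1)}`, followed by the phases `exp (2 π i θ x)`. -/
noncomputable def bakerMap {D k : ℕ} (W : Matrix (Fin D) (Fin D) ℂ) (θ : Word D (k + 1) → ℝ)
    (ψ : Word D (k + 1) → ℂ) : Word D (k + 1) → ℂ := fun x =>
  Complex.exp (2 * Real.pi * θ x * Complex.I) *
    ∑ y : Fin D, W (x (Fin.last k)) y * ψ (Fin.cons y (Fin.init x))

/-- `ψ` is a unit eigenvector of the perturbed baker map. -/
def IsUnitEigenvector {D k : ℕ} (W : Matrix (Fin D) (Fin D) ℂ) (θ : Word D (k + 1) → ℝ)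
    (ψ : Word D (k + 1) → ℂ) : Prop :=
  ∑ x, ‖ψ x‖ ^ 2 = 1 ∧ ∃ lam : ℂ, bakerMap W θ ψ = fun x => lam * ψ x

/-- The word `w` occurs in `x` at position `i`. -/
def Occurs {D n l : ℕ} (x : Word D n) (i : ℕ) (w : Word D l) : Prop :=
  ∃ h : i + l ≤ n, ∀ j : Fin l, x ⟨i + j, by omega⟩ = w j

open Classical in
/-- The probability that `|ψ| ^ 2` gives to the words which contain `w` at position `i`. -/
noncomputable def cylWeight {D n l : ℕ} (ψ : Word D n → ℂ) (i : ℕ) (w : Word D l) : ℝ :=
  ∑ x ∈ Finset.univ.filter (fun x : Word D n => Occurs x i w), ‖ψ x‖ ^ 2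

/-- The doubly stochastic matrix `(|W a b| ^ 2)` is primitive: some power has positive entries. -/
def IsMixing {D : ℕ} (W : Matrix (Fin D) (Fin D) ℂ) : Prop :=
  ∃ q : ℕ, ∀ a b : Fin D,
    0 < ((Matrix.of fun a b => ‖W a b‖ ^ 2 : Matrix (Fin D) (Fin D) ℝ) ^ q) a b

/-! ## Auxiliary notions for the proof -/

/-- The matrix of the unperturbed baker map. -/
noncomputable def bakerMat {D : ℕ} (k : ℕ) (W : Matrix (Fin D) (Fin D) ℂ) :
    Matrix (Word D (k + 1)) (Word D (k + 1)) ℂ :=
  Matrix.of fun x x' => if Fin.init x = Fin.tail x' then W (x (Fin.last k)) (x' 0) else 0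

/-- The matrix `V` followed by the phases `exp (2 π i θ x)`. -/
noncomputable def phased {X : Type*} (V : Matrix X X ℂ) (θ : X → ℝ) : Matrix X X ℂ :=
  Matrix.of fun x y => Complex.exp (2 * Real.pi * θ x * Complex.I) * V x y

open Classical in
/-- The block of `A` with rows and columns in `s`, extended by zero. -/
noncomputable def cut {X : Type*} (s : Finset X) (A : Matrix X X ℂ) : Matrix X X ℂ :=
  Matrix.of fun x y => if x ∈ s ∧ y ∈ s then A x y else 0

/-- The matrix of the squared absolute values. -/
noncomputable def sqm {X : Type*} (V : Matrix X X ℂ) : Matrix X X ℝ :=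
  Matrix.of fun x y => ‖V x y‖ ^ 2

/-- Paths with `T` steps. -/
abbrev Pth (X : Type*) (T : ℕ) : Type _ := Fin (T + 1) → X

/-- All steps of the path are allowed by `V`. -/
def IsPath {X : Type*} {T : ℕ} (V : Matrix X X ℂ) (p : Pth X T) : Prop :=
  ∀ t : Fin T, V (p t.succ) (p t.castSucc) ≠ 0

/-- The product of the absolute values of the entries along the path. -/
noncomputable def wt {X : Type*} {T : ℕ} (V : Matrix X X ℂ) (p : Pth X T) : ℝ :=
  ∏ t : Fin T, ‖V (p t.succ) (p t.castSucc)‖

/-- Two paths are linked: some state of one of them is a `V`-neighbour of a state of the other. -/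
def Link {X : Type*} {T : ℕ} (V : Matrix X X ℂ) (p p' : Pth X T) : Prop :=
  ∃ t t' : Fin (T + 1), V (p' t') (p t) ≠ 0 ∨ V (p t) (p' t') ≠ 0

/-- The link graph of a family of paths. -/
def linkGraph {X ι : Type*} {T : ℕ} (V : Matrix X X ℂ) (a : ι → Pth X T) : SimpleGraph ι :=
  SimpleGraph.fromRel fun i j => Link V (a i) (a j)

open Classical in
/-- Number of visits of the state `x` by the family of paths, the starting points excepted. -/
noncomputable def visits {X ι : Type*} [Fintype ι] {T : ℕ} (a : ι → Pth X T) (x : X) : ℕ :=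
  (Finset.univ.filter fun jt : ι × Fin T => a jt.1 jt.2.succ = x).card

/-- The pairs of families of paths that contribute to the expected trace: `a j` and `b j` start at
the same point of `s`, the end of `b j` is the end of `a (c j)`, in `s`, and the two families visit
every state equally often. -/
def Conf {X ι : Type*} [Fintype ι] {T : ℕ} (s : Finset X) (c : ι → ι)
    (a b : ι → Pth X T) : Prop :=
  (∀ j, a j 0 ∈ s) ∧ (∀ j, a j (Fin.last T) ∈ s) ∧ (∀ j, b j 0 = a j 0) ∧
    (∀ j, b j (Fin.last T) = a (c j) (Fin.last T)) ∧ ∀ x, visits a x = visits b x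

open Classical in
/-- Number of positions at which `w` occurs in `x`. -/
noncomputable def occ {D n l : ℕ} (x : Word D n) (w : Word D l) : ℕ :=
  ((Finset.range (n + 1 - l)).filter fun i => Occurs x i w).card

open Classical in
/-- The words in which the frequency of `w` deviates from `D ^ (-l)` by more than `ε`. -/
noncomputable def atyp (D n l : ℕ) (w : Word D l) (ε : ℝ) : Finset (Word D n) :=
  Finset.univ.filter fun x => ε < |(occ x w : ℝ) / ((n + 1 - l : ℕ) : ℝ) - (1 / (D : ℝ)) ^ l|

end Pool.Agent.helper98.RPB
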