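import Pool.Agent.helper98.RPB.MB
import Pool.Agent.helper37.RQ.NO
import Pool.Agent.helper18.RQ.CO
import Pool.Agent.helper64.RQ.EG
import Pool.Agent.helper30.RQ.BK

set_option autoImplicit false

open MeasureTheory Matrix
open scoped BigOperators ComplexConjugate

namespace Pool.Agent.helper98.RPB

section Abstract

variable {X : Type} [Fintype X] [DecidableEq X]

/-- the traces which are small outside a small set of phases -/
noncomputable def trc (V : Matrix X X ℂ) (s : Finset X) (T P : ℕ) (θ : X → ℝ) : ℝ :=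
  (Matrix.trace ((cut s (phased V θ ^ T) * (cut s (phased V θ ^ T))ᴴ) ^ P)).re

theorem continuous_trc (V : Matrix X X ℂ) (s : Finset X) (T P : ℕ) :
    Continuous (trc V s T P) := by
  have h1 : Continuous fun θ : X → ℝ => phased V θ := by
    refine continuous_matrix fun i j => ?_
    unfold phased
    simp only [Matrix.of_apply]
    fun_prop
  have h2 : Continuous fun θ : X → ℝ => cut s (phased V θ ^ T) := by
    have h3 : Continuous fun θ : X → ℝ => phased V θ ^ T := h1.pow T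
    refine continuous_matrix fun i j => ?_
    unfold cut
    simp only [Matrix.of_apply]
    split_ifs
    · exact h3.matrix_elem i j
    · exact continuous_const
  unfold trc
  refine Complex.continuous_re.comp ?_
  refine Continuous.matrix_trace ?_
  exact (h2.mul h2.matrix_conjTranspose).pow P

theorem markov_trc (V : Matrix X X ℂ) (s : Finset X) (T P : ℕ) (a E : ℝ) (ha : 0 < a)
    (hE : ∫ θ in Set.Icc (0 : X → ℝ) 1, trc V s T P θ ≤ E) :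
    volume {θ : X → ℝ | θ ∈ Set.Icc 0 1 ∧ a ≤ trc V s T P θ} ≤ ENNReal.ofReal (E / a) := by
  have hc := continuous_trc V s T P
  have hint : IntegrableOn (trc V s T P) (Set.Icc (0 : X → ℝ) 1) volume :=
    hc.continuousOn.integrableOn_compact isCompact_Icc
  have h1 := mul_meas_ge_le_integral_of_nonneg (μ := volume.restrict (Set.Icc (0 : X → ℝ) 1))
    (f := trc V s T P) (Filter.Eventually.of_forall fun θ => Pool.Agent.helper37.RQ.trace_re_nonneg _ _) hint a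
  have hmeas : MeasurableSet {θ : X → ℝ | a ≤ trc V s T P θ} :=
    measurableSet_le measurable_const hc.measurable
  have h2 : {θ : X → ℝ | θ ∈ Set.Icc 0 1 ∧ a ≤ trc V s T P θ} =
      {θ : X → ℝ | a ≤ trc V s T P θ} ∩ Set.Icc 0 1 := by
    ext θ; simp [and_comm]
  rw [h2, ← Measure.restrict_apply hmeas]
  have : IsFiniteMeasure (volume.restrict (Set.Icc (0 : X → ℝ) 1)) :=
    ⟨by rw [Measure.restrict_apply_univ]; exact isCompact_Icc.measure_lt_top⟩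
  rw [← ENNReal.ofReal_toReal (measure_ne_top (volume.restrict (Set.Icc (0 : X → ℝ) 1)) _)]
  refine ENNReal.ofReal_le_ofReal ?_
  rw [le_div_iff₀ ha, mul_comm]
  exact le_trans h1 hE

/-- small traces force small mass -/
theorem mass_of_trc (V : Matrix X X ℂ) (s : Finset X) (T₀ m r : ℕ) (hm : 1 ≤ m) (δ : ℝ)
    (hδ : 0 < δ) (θ : X → ℝ) (hU : phased V θ ∈ Matrix.unitaryGroup X ℂ)
    (h : ∀ i, 1 ≤ i → i < m → trc V s (i * T₀) (2 ^ r) θ < δ ^ (2 * 2 ^ r))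
    (ψ : X → ℂ) (hψ : ∑ x, ‖ψ x‖ ^ 2 = 1) (lam : ℂ)
    (heig : phased V θ *ᵥ ψ = fun x => lam * ψ x) :
    ∑ x ∈ s, ‖ψ x‖ ^ 2 ≤ 1 / m + δ := by
  refine Pool.Agent.helper37.RQ.mass_le (phased V θ) hU s T₀ m hm δ hδ.le (fun i hi him u v => ?_) ψ hψ lam heig
  have h1 := Pool.Agent.helper37.RQ.bilinear_le_trace (cut s (phased V θ ^ (i * T₀))) r u v
  have h2 := h i hi him
  have hu : 0 ≤ ∑ x, ‖u x‖ ^ 2 := Finset.sum_nonneg fun x _ => by positivity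
  have hv : 0 ≤ ∑ x, ‖v x‖ ^ 2 := Finset.sum_nonneg fun x _ => by positivity
  have h3 : ‖∑ x, ∑ y, conj (u x) * cut s (phased V θ ^ (i * T₀)) x y * v y‖ ^ (2 * 2 ^ r) ≤
      (δ * (Real.sqrt (∑ x, ‖u x‖ ^ 2) * Real.sqrt (∑ y, ‖v y‖ ^ 2))) ^ (2 * 2 ^ r) := by
    refine le_trans h1 ?_
    rw [mul_pow δ, mul_comm (δ ^ (2 * 2 ^ r))]
    have h4 : (Real.sqrt (∑ x, ‖u x‖ ^ 2) * Real.sqrt (∑ y, ‖v y‖ ^ 2)) ^ (2 * 2 ^ r) =
        ((∑ x, ‖u x‖ ^ 2) * (∑ y, ‖v y‖ ^ 2)) ^ (2 ^ r) := by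
      rw [pow_mul, mul_pow, Real.sq_sqrt hu, Real.sq_sqrt hv]
    rw [h4]
    exact mul_le_mul_of_nonneg_left h2.le (by positivity)
  exact le_of_pow_le_pow_left₀ (by positivity) (by positivity) h3

end Abstract

/-- The bound `κ` for the baker map. -/
theorem kappa_bound {D k : ℕ} (hD : 2 ≤ D) (W : Matrix (Fin D) (Fin D) ℂ)
    (hW : W ∈ Matrix.unitaryGroup (Fin D) ℂ) (q : ℕ) (η : ℝ) (hη : 0 ≤ η)
    (hr : ∀ a b, (sqm W ^ q) a b ≤ (1 + η) / D) (s : Finset (Word D (k + 1))) (c₀ : ℝ)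
    (hη2 : 1 + η ≤ Real.exp (c₀ / 2))
    (hs : (s.card : ℝ) ≤ 2 * (D : ℝ) ^ (k + 1) * Real.exp (-(c₀ * (k + 1 : ℕ))))
    (t : ℕ) (ht : q * (k + 1) ≤ t) (z : Word D (k + 1)) :
    ∑ x ∈ s, (sqm (bakerMat k W) ^ t) x z ≤ 2 * Real.exp (-(c₀ / 2 * (k + 1 : ℕ))) ∧
      ∑ x ∈ s, (sqm (bakerMat k W) ^ t) z x ≤ 2 * Real.exp (-(c₀ / 2 * (k + 1 : ℕ))) := by
  have hD0 : (0 : ℝ) < D := by positivity
  have key : (s.card : ℝ) * ((1 + η) / D) ^ (k + 1) ≤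
      2 * Real.exp (-(c₀ / 2 * (k + 1 : ℕ))) := by
    have h1 : ((1 + η) / (D : ℝ)) ^ (k + 1) ≤ Real.exp (c₀ / 2 * (k + 1 : ℕ)) / (D : ℝ) ^ (k + 1) := by
      rw [div_pow]
      refine div_le_div_of_nonneg_right ?_ (by positivity)
      calc (1 + η) ^ (k + 1) ≤ (Real.exp (c₀ / 2)) ^ (k + 1) :=
            pow_le_pow_left₀ (by positivity) hη2 _
        _ = Real.exp (c₀ / 2 * (k + 1 : ℕ)) := by
            rw [← Real.exp_nat_mul]; ring_nf
    calc (s.card : ℝ) * ((1 + η) / D) ^ (k + 1) ≤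
        (2 * (D : ℝ) ^ (k + 1) * Real.exp (-(c₀ * (k + 1 : ℕ)))) *
          (Real.exp (c₀ / 2 * (k + 1 : ℕ)) / (D : ℝ) ^ (k + 1)) :=
          mul_le_mul hs h1 (by positivity) (by positivity)
      _ = 2 * (Real.exp (-(c₀ * (k + 1 : ℕ))) * Real.exp (c₀ / 2 * (k + 1 : ℕ))) := by
          field_simp
      _ = 2 * Real.exp (-(c₀ / 2 * (k + 1 : ℕ))) := by
          rw [← Real.exp_add]; ring_nf
  constructor
  · refine le_trans (Finset.sum_le_card_nsmul _ _ _ fun x _ =>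
      Pool.Agent.helper30.RQ.sqm_bakerMat_pow_le W hW q _ hr t ht x z) ?_
    rw [nsmul_eq_mul]; exact key
  · refine le_trans (Finset.sum_le_card_nsmul _ _ _ fun x _ =>
      Pool.Agent.helper30.RQ.sqm_bakerMat_pow_le W hW q _ hr t ht z x) ?_
    rw [nsmul_eq_mul]; exact key

/-- elementary asymptotics -/
theorem eventually_poly_exp (A : ℝ) (N : ℕ) :
    ∃ K : ℕ, ∀ n ≥ K, A * (n : ℝ) ^ N * Real.exp (-(2 * n : ℝ)) ≤ Real.exp (-(n : ℝ)) := by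
  have h := Real.tendsto_pow_mul_exp_neg_atTop_nhds_zero N
  have h2 : Filter.Tendsto (fun n : ℕ => A * ((n : ℝ) ^ N * Real.exp (-(n : ℝ)))) Filter.atTop
      (nhds (A * 0)) := (h.comp tendsto_natCast_atTop_atTop).const_mul A
  rw [mul_zero] at h2
  have h3 := h2.eventually (ge_mem_nhds (show (0 : ℝ) < 1 by norm_num))
  obtain ⟨K, hK⟩ := Filter.eventually_atTop.mp h3
  refine ⟨K, fun n hn => ?_⟩
  have h4 := hK n hn
  have h5 : Real.exp (-(2 * n : ℝ)) = Real.exp (-(n : ℝ)) * Real.exp (-(n : ℝ)) := by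
    rw [← Real.exp_add]; ring_nf
  rw [h5]
  calc A * (n : ℝ) ^ N * (Real.exp (-(n : ℝ)) * Real.exp (-(n : ℝ))) =
      (A * ((n : ℝ) ^ N * Real.exp (-(n : ℝ)))) * Real.exp (-(n : ℝ)) := by ring
    _ ≤ 1 * Real.exp (-(n : ℝ)) := mul_le_mul_of_nonneg_right h4 (Real.exp_nonneg _)
    _ = Real.exp (-(n : ℝ)) := one_mul _


theorem card_atyp_le' {D l : ℕ} (hD : 1 ≤ D) (hl : 1 ≤ l) (w : Word D l) (ε : ℝ) (hε : 0 < ε)
    (n : ℕ) (hn : 2 * l ≤ n) :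
    ((atyp D n l w ε).card : ℝ) ≤
      2 * (D : ℝ) ^ n * Real.exp (-(ε ^ 2 / (16 * (l : ℝ) ^ 2) * (n : ℝ))) := by
  refine le_trans (Pool.Agent.helper18.RQ.card_atyp_le D n l hD hl (by omega) w ε hε) ?_
  refine mul_le_mul_of_nonneg_left ?_ (by positivity)
  apply Real.exp_le_exp.mpr
  have hn0 : (0 : ℝ) < n := by
    have : 0 < n := by omega
    exact_mod_cast this
  have hl0 : (0 : ℝ) < l := by
    have : 0 < l := by omega
    exact_mod_cast this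
  have h1 : (n : ℝ) / 2 ≤ (n : ℝ) - l + 1 := by
    have : (2 * l : ℝ) ≤ n := by exact_mod_cast hn
    linarith
  have h2 : ((n : ℝ) / 2) ^ 2 ≤ ((n : ℝ) - l + 1) ^ 2 :=
    pow_le_pow_left₀ (by positivity) h1 2
  rw [neg_le_neg_iff]
  have h3 : ε ^ 2 / (16 * (l : ℝ) ^ 2) * (n : ℝ) =
      ε ^ 2 * ((n : ℝ) / 2) ^ 2 / (4 * n * (l : ℝ) ^ 2) := by
    field_simp
    norm_num
  rw [h3]
  refine div_le_div_of_nonneg_right ?_ (by positivity)
  exact mul_le_mul_of_nonneg_left h2 (by positivity)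

/-- One word `w` and one time `i T₀`. -/
theorem one_time {D l : ℕ} (hD : 2 ≤ D) (W : Matrix (Fin D) (Fin D) ℂ)
    (hW : W ∈ Matrix.unitaryGroup (Fin D) ℂ) (c₀ : ℝ) (q₀ m r : ℕ)
    (hq₀ : 1 ≤ q₀)
    (hr : ∀ a b, (sqm W ^ q₀) a b ≤ (1 + c₀ / 2) / D) (hc₀ : 0 < c₀)
    (hP : Real.log D + 2 ≤ ((2 ^ r : ℕ) - 1 : ℝ) * (c₀ / 2)) :
    ∃ (A : ℝ) (N : ℕ), 0 ≤ A ∧ ∀ (k : ℕ) (s : Finset (Word D (k + 1))),
      ((s.card : ℝ) ≤ 2 * (D : ℝ) ^ (k + 1) * Real.exp (-(c₀ * (k + 1 : ℕ)))) →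
      ∀ i, 1 ≤ i → i < m →
        ∫ θ in Set.Icc (0 : Word D (k + 1) → ℝ) 1,
          trc (bakerMat k W) s (i * (2 * q₀ * (k + 1))) (2 ^ r) θ ≤
          A * ((k + 1 : ℕ) : ℝ) ^ N * Real.exp (-(2 * ((k + 1 : ℕ) : ℝ))) := by
  have hD0 : (0 : ℝ) < D := by positivity
  set P : ℕ := 2 ^ r with hPdef
  have hP1 : 1 ≤ P := Nat.one_le_two_pow
  have : NeZero P := ⟨by omega⟩
  set C₁ : ℝ := 2 * q₀ * m + 1 with hC₁
  refine ⟨(P * C₁) ^ (2 * q₀ * m * P) * (4 * (P : ℝ) ^ 2 * C₁ ^ 2 * D) ^ (P - 1),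
    2 * q₀ * m * P + 2 * (P - 1), by positivity, fun k s hs i hi him => ?_⟩
  obtain ⟨x, hx⟩ : ∃ x : ℝ, x = ((k + 1 : ℕ) : ℝ) := ⟨_, rfl⟩
  have hx1 : (1 : ℝ) ≤ x := by rw [hx]; push_cast; linarith [Nat.cast_nonneg (α := ℝ) k]
  set κ : ℝ := 2 * Real.exp (-(c₀ / 2 * (k + 1 : ℕ))) with hκ
  obtain ⟨T, hT⟩ : ∃ T : ℕ, T = i * (2 * q₀ * (k + 1)) := ⟨_, rfl⟩
  obtain ⟨q, hq⟩ : ∃ q : ℕ, q = 2 * q₀ * i := ⟨_, rfl⟩
  have hTq : T = q * (k + 1) := by rw [hT, hq]; ring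
  have hκ0 : 0 ≤ κ := by positivity
  have hη2 : 1 + c₀ / 2 ≤ Real.exp (c₀ / 2) := by
    have := Real.add_one_le_exp (c₀ / 2); linarith
  have hq1 : 1 ≤ q := by
    rw [hq]
    exact Nat.one_le_iff_ne_zero.mpr (by positivity)
  have hmb := moment_bound (bakerMat k W) D (k + 1) q T P s κ hκ0 (by omega) hq1 hTq
    (Pool.Agent.helper30.RQ.bakerMat_row W hW) (Pool.Agent.helper30.RQ.bakerMat_col W hW) (fun x => Pool.Agent.helper30.RQ.bakerMat_rowD W x)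
    (fun y => Pool.Agent.helper30.RQ.bakerMat_colD W y) (fun p p' => Pool.Agent.helper30.RQ.bakerMat_path_unique W p p')
    (fun t _ ht2 z => kappa_bound hD W hW q₀ (c₀ / 2) (by positivity) hr s c₀ hη2 hs t
      (by
        have h1 : 2 * (q₀ * (k + 1)) ≤ T := by
          rw [hT]
          calc 2 * (q₀ * (k + 1)) = 1 * (2 * q₀ * (k + 1)) := by ring
            _ ≤ i * (2 * q₀ * (k + 1)) := Nat.mul_le_mul_right _ hi
        omega) z)
  rw [← hT, ← hx]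
  refine le_trans hmb ?_
  have hiT : (T : ℝ) ≤ (C₁ - 1) * x := by
    rw [hT, hC₁, hx]; push_cast
    have : (i : ℝ) ≤ m := by exact_mod_cast him.le
    have h2 : (0 : ℝ) ≤ 2 * q₀ * (k + 1) := by positivity
    nlinarith
  have hC₁1 : 1 ≤ C₁ := by
    rw [hC₁]
    have : (0 : ℝ) ≤ 2 * q₀ * m := by positivity
    linarith
  have hT1 : (T : ℝ) + 1 ≤ C₁ * x := by nlinarith
  have hT2 : (T : ℝ) ≤ C₁ * x := by linarith
  have hPr : (1 : ℝ) ≤ P := by exact_mod_cast hP1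
  -- first factor
  have hTr1 : (1 : ℝ) ≤ P * (C₁ * x) := by
    have : (1 : ℝ) ≤ C₁ * x := by nlinarith
    nlinarith
  have f1 : ((P : ℝ) * T) ^ (q * P) ≤ (P * C₁) ^ (2 * q₀ * m * P) * x ^ (2 * q₀ * m * P) := by
    rw [← mul_pow]
    calc ((P : ℝ) * T) ^ (q * P) ≤ (P * (C₁ * x)) ^ (q * P) :=
          pow_le_pow_left₀ (by positivity) (mul_le_mul_of_nonneg_left hT2 (by positivity)) _
      _ ≤ (P * (C₁ * x)) ^ (2 * q₀ * m * P) := by
          refine pow_le_pow_right₀ hTr1 ?_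
          rw [hq]
          exact Nat.mul_le_mul_right _ (Nat.mul_le_mul_left _ him.le)
      _ = (P * C₁ * x) ^ (2 * q₀ * m * P) := by ring
  -- card of s
  have f2 : (s.card : ℝ) ≤ (D : ℝ) ^ (k + 1) := by
    have h1 : s.card ≤ Fintype.card (Word D (k + 1)) := Finset.card_le_univ s
    have h2 : Fintype.card (Word D (k + 1)) = D ^ (k + 1) := by simp [Word]
    rw [h2] at h1
    exact_mod_cast h1
  -- last factor
  have f3 : (2 * (P : ℝ) ^ 2 * ((T : ℝ) + 1) ^ 2 * D * κ) ^ (P - 1) ≤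
      (4 * (P : ℝ) ^ 2 * C₁ ^ 2 * D) ^ (P - 1) * x ^ (2 * (P - 1)) *
        Real.exp (-(((P : ℝ) - 1) * (c₀ / 2) * x)) := by
    have h1 : 2 * (P : ℝ) ^ 2 * ((T : ℝ) + 1) ^ 2 * D * κ ≤
        (4 * (P : ℝ) ^ 2 * C₁ ^ 2 * D) * x ^ 2 * Real.exp (-(c₀ / 2 * x)) := by
      have h2 : ((T : ℝ) + 1) ^ 2 ≤ (C₁ * x) ^ 2 := pow_le_pow_left₀ (by positivity) hT1 2
      calc 2 * (P : ℝ) ^ 2 * ((T : ℝ) + 1) ^ 2 * D * κ =
          (2 * (P : ℝ) ^ 2 * D * κ) * ((T : ℝ) + 1) ^ 2 := by ring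
        _ ≤ (2 * (P : ℝ) ^ 2 * D * κ) * (C₁ * x) ^ 2 :=
            mul_le_mul_of_nonneg_left h2 (by positivity)
        _ = (4 * (P : ℝ) ^ 2 * C₁ ^ 2 * D) * x ^ 2 * Real.exp (-(c₀ / 2 * x)) := by
            rw [hκ, ← hx]; ring
    refine le_trans (pow_le_pow_left₀ (by positivity) h1 (P - 1)) (le_of_eq ?_)
    rw [mul_pow, mul_pow, ← pow_mul, ← Real.exp_nat_mul]
    congr 1
    congr 1
    rw [Nat.cast_sub hP1]
    push_cast
    ring
  have f4 : (D : ℝ) ^ (k + 1) * Real.exp (-(((P : ℝ) - 1) * (c₀ / 2) * x)) ≤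
      Real.exp (-(2 * x)) := by
    have h1 : (D : ℝ) ^ (k + 1) = Real.exp (Real.log D * x) := by
      rw [mul_comm, hx, Real.exp_nat_mul, Real.exp_log hD0]
    rw [h1, ← Real.exp_add]
    apply Real.exp_le_exp.mpr
    have h2 : Real.log D + 2 ≤ ((P : ℝ) - 1) * (c₀ / 2) := by
      have := hP
      rw [hPdef]
      exact_mod_cast this
    nlinarith
  calc ((P : ℝ) * T) ^ (q * P) * (s.card * (2 * (P : ℝ) ^ 2 * ((T : ℝ) + 1) ^ 2 * D * κ) ^ (P - 1))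
      ≤ ((P * C₁) ^ (2 * q₀ * m * P) * x ^ (2 * q₀ * m * P)) * ((D : ℝ) ^ (k + 1) *
        ((4 * (P : ℝ) ^ 2 * C₁ ^ 2 * D) ^ (P - 1) * x ^ (2 * (P - 1)) *
        Real.exp (-(((P : ℝ) - 1) * (c₀ / 2) * x)))) := by
        refine mul_le_mul f1 (mul_le_mul f2 f3 (by positivity) (by positivity))
          (by positivity) (by positivity)
    _ = ((P * C₁) ^ (2 * q₀ * m * P) * (4 * (P : ℝ) ^ 2 * C₁ ^ 2 * D) ^ (P - 1)) *
        x ^ (2 * q₀ * m * P + 2 * (P - 1)) *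
        ((D : ℝ) ^ (k + 1) * Real.exp (-(((P : ℝ) - 1) * (c₀ / 2) * x))) := by
        rw [pow_add]; ring
    _ ≤ ((P * C₁) ^ (2 * q₀ * m * P) * (4 * (P : ℝ) ^ 2 * C₁ ^ 2 * D) ^ (P - 1)) *
        x ^ (2 * q₀ * m * P + 2 * (P - 1)) * Real.exp (-(2 * x)) :=
        mul_le_mul_of_nonneg_left f4 (by positivity)

/-- Equidistribution of all eigenvectors for mixing gates. -/
theorem mixing_que (D : ℕ) (hD : 2 ≤ D) (W : Matrix (Fin D) (Fin D) ℂ)
    (hW : W ∈ Matrix.unitaryGroup (Fin D) ℂ) (h : IsMixing W) (l : ℕ) (ε : ℝ) (hε : 0 < ε) :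
    ∃ c : ℝ, 0 < c ∧ ∃ K : ℕ, ∀ k ≥ K,
      volume {θ : Word D (k + 1) → ℝ | θ ∈ Set.Icc 0 1 ∧
        ∃ ψ : Word D (k + 1) → ℂ, IsUnitEigenvector W θ ψ ∧
          ∃ (i : ℕ) (w : Word D l), i + l ≤ k + 1 ∧
            ε ≤ |cylWeight ψ i w - (1 / (D : ℝ)) ^ l|} ≤ ENNReal.ofReal (Real.exp (-(c * k))) := by
  classical
  have hD0 : (0 : ℝ) < D := by positivity
  rcases Nat.eq_zero_or_pos l with hl0 | hl
  · -- trivial case
    subst hl0
    refine ⟨1, one_pos, 0, fun k _ => ?_⟩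
    have hempty : {θ : Word D (k + 1) → ℝ | θ ∈ Set.Icc 0 1 ∧
        ∃ ψ : Word D (k + 1) → ℂ, IsUnitEigenvector W θ ψ ∧
          ∃ (i : ℕ) (w : Word D 0), i + 0 ≤ k + 1 ∧
            ε ≤ |cylWeight ψ i w - (1 / (D : ℝ)) ^ 0|} = ∅ := by
      rw [Set.eq_empty_iff_forall_notMem]
      rintro θ ⟨_, ψ, hψ, i, w, hi, hge⟩
      have h1 : cylWeight ψ i w = 1 := by
        unfold cylWeight
        rw [← hψ.1]
        refine Finset.sum_congr ?_ fun _ _ => rfl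
        rw [Finset.filter_true_of_mem]
        intro x _
        exact ⟨by omega, fun j => j.elim0⟩
      rw [h1] at hge
      simp at hge
      linarith
    rw [hempty]
    simp
  -- parameters
  set ε' : ℝ := ε / 4 with hε'
  have hε'0 : 0 < ε' := by positivity
  have hlr : (0 : ℝ) < l := by exact_mod_cast hl
  set c₀ : ℝ := ε' ^ 2 / (16 * (l : ℝ) ^ 2) with hc₀
  have hc₀0 : 0 < c₀ := by positivity
  obtain ⟨q₀, hq₀, hr⟩ := Pool.Agent.helper30.RQ.exists_pow_le W hW h (c₀ / 2) (by positivity)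
  obtain ⟨m, hm⟩ := exists_nat_ge (4 / ε)
  have hm0 : (0 : ℝ) < m := lt_of_lt_of_le (by positivity) hm
  have hm1 : 1 ≤ m := by
    have : 0 < m := by exact_mod_cast hm0
    omega
  have hminv : 1 / (m : ℝ) ≤ ε / 4 := by
    rw [div_le_iff₀ hm0]
    have := (div_le_iff₀ hε).mp hm
    linarith
  obtain ⟨r, hr2⟩ := pow_unbounded_of_one_lt (1 + (Real.log D + 2) / (c₀ / 2)) (one_lt_two (α := ℝ))
  have hP : Real.log D + 2 ≤ ((2 ^ r : ℕ) - 1 : ℝ) * (c₀ / 2) := by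
    have h1 : (Real.log D + 2) / (c₀ / 2) ≤ (2 : ℝ) ^ r - 1 := by linarith
    rw [div_le_iff₀ (by positivity)] at h1
    push_cast
    exact h1
  obtain ⟨A, N, hA, hbound⟩ := one_time (l := l) hD W hW c₀ q₀ m r hq₀ hr hc₀0 hP
  obtain ⟨K₁, hK₁⟩ := eventually_poly_exp ((D : ℝ) ^ l * m * (A / (ε / 4) ^ (2 * 2 ^ r))) N
  refine ⟨1, one_pos, max K₁ (2 * l), fun k hk => ?_⟩
  set V := bakerMat k W with hV
  set bad : Word D l → ℕ → Set (Word D (k + 1) → ℝ) := fun w i =>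
    {θ | θ ∈ Set.Icc 0 1 ∧ (ε / 4) ^ (2 * 2 ^ r) ≤
      trc V (atyp D (k + 1) l w ε') (i * (2 * q₀ * (k + 1))) (2 ^ r) θ} with hbad
  have hsub : {θ : Word D (k + 1) → ℝ | θ ∈ Set.Icc 0 1 ∧
        ∃ ψ : Word D (k + 1) → ℂ, IsUnitEigenvector W θ ψ ∧
          ∃ (i : ℕ) (w : Word D l), i + l ≤ k + 1 ∧
            ε ≤ |cylWeight ψ i w - (1 / (D : ℝ)) ^ l|} ⊆
      ⋃ wi ∈ (Finset.univ : Finset (Word D l)) ×ˢ (Finset.Ico 1 m), bad wi.1 wi.2 := by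
    rintro θ ⟨hθ, ψ, hψ, i, w, hi, hge⟩
    by_contra hnot
    simp only [Set.mem_iUnion, not_exists] at hnot
    have hsmall : ∀ i', 1 ≤ i' → i' < m →
        trc V (atyp D (k + 1) l w ε') (i' * (2 * q₀ * (k + 1))) (2 ^ r) θ <
          (ε / 4) ^ (2 * 2 ^ r) := by
      intro i' h1 h2
      have h3 := hnot (w, i') (by simp [h1, h2])
      simp only [hbad, Set.mem_ofPred_eq, not_and, not_le] at h3
      exact h3 hθ
    obtain ⟨hψ1, lam, hlam⟩ := hψ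
    have hmass := mass_of_trc V (atyp D (k + 1) l w ε') (2 * q₀ * (k + 1)) m r hm1 (ε / 4)
      (by positivity) θ (Pool.Agent.helper30.RQ.bakerMat_mem_unitary W hW θ) hsmall ψ hψ1 lam
      (by rw [← Pool.Agent.helper30.RQ.bakerMap_eq_mulVec]; exact hlam)
    have h4 := Pool.Agent.helper64.RQ.abs_cylWeight_sub_le W hW θ ψ ⟨hψ1, lam, hlam⟩ i w hi ε' hε'0.le
    have : ε ≤ ε / 4 + (ε / 4 + ε / 4) := by
      calc ε ≤ _ := hge
        _ ≤ ε' + ∑ x ∈ atyp D (k + 1) l w ε', ‖ψ x‖ ^ 2 := h4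
        _ ≤ ε / 4 + (1 / m + ε / 4) := by rw [hε']; linarith
        _ ≤ ε / 4 + (ε / 4 + ε / 4) := by linarith
    linarith
  have hk1 : 2 * l ≤ k + 1 := by
    have := le_max_right K₁ (2 * l)
    omega
  have hone : ∀ wi ∈ (Finset.univ : Finset (Word D l)) ×ˢ (Finset.Ico 1 m),
      volume (bad wi.1 wi.2) ≤ ENNReal.ofReal
        (A * ((k + 1 : ℕ) : ℝ) ^ N * Real.exp (-(2 * ((k + 1 : ℕ) : ℝ))) /
          (ε / 4) ^ (2 * 2 ^ r)) := by
    rintro ⟨w, i⟩ hwi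
    simp only [Finset.mem_product, Finset.mem_univ, true_and, Finset.mem_Ico] at hwi
    refine markov_trc V _ _ _ _ _ (by positivity) ?_
    exact hbound k _ (card_atyp_le' (by omega) hl w ε' hε'0 (k + 1) hk1) i hwi.1 hwi.2
  refine le_trans (measure_mono hsub) (le_trans (measure_biUnion_finset_le _ _) ?_)
  refine le_trans (Finset.sum_le_sum hone) ?_
  rw [Finset.sum_const, nsmul_eq_mul, ← ENNReal.ofReal_natCast, ← ENNReal.ofReal_mul (by positivity)]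
  refine ENNReal.ofReal_le_ofReal ?_
  have hcard : ((((Finset.univ : Finset (Word D l)) ×ˢ (Finset.Ico 1 m)).card : ℕ) : ℝ) ≤
      (D : ℝ) ^ l * m := by
    rw [Finset.card_product, Nat.card_Ico]
    have h1 : (Finset.univ : Finset (Word D l)).card = D ^ l := by simp [Word]
    rw [h1]
    push_cast
    refine mul_le_mul_of_nonneg_left ?_ (by positivity)
    exact_mod_cast Nat.sub_le m 1
  calc _ ≤ (D : ℝ) ^ l * m * (A * ((k + 1 : ℕ) : ℝ) ^ N *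
        Real.exp (-(2 * ((k + 1 : ℕ) : ℝ))) / (ε / 4) ^ (2 * 2 ^ r)) :=
        mul_le_mul_of_nonneg_right hcard (by positivity)
    _ = (D : ℝ) ^ l * m * (A / (ε / 4) ^ (2 * 2 ^ r)) * ((k + 1 : ℕ) : ℝ) ^ N *
        Real.exp (-(2 * ((k + 1 : ℕ) : ℝ))) := by ring
    _ ≤ Real.exp (-((k + 1 : ℕ) : ℝ)) := hK₁ (k + 1) (by
        have := le_max_left K₁ (2 * l)
        omega)
    _ ≤ Real.exp (-(1 * (k : ℝ))) := by
        apply Real.exp_le_exp.mpr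
        push_cast
        linarith

end Pool.Agent.helper98.RPB
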