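import Pool.Agent.helper8.RQ.ET
import Pool.Agent.helper54.RQ.CT
import Pool.Agent.helper54.RQ.CN
import Pool.Agent.helper17.RQ.LK

set_option autoImplicit false

open MeasureTheory Matrix
open scoped BigOperators ComplexConjugate

namespace Pool.Agent.helper98.RPB

variable {X : Type} [Fintype X] [DecidableEq X]

omit [Fintype X] [DecidableEq X] in
theorem exists_of_visits {ι : Type} [Fintype ι] {T : ℕ} (a b : ι → Pth X T)
    (h : ∀ x, visits a x = visits b x) (j : ι) (t : Fin T) :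
    ∃ i, ∃ t' : Fin T, b j t.succ = a i t'.succ := by
  classical
  have h1 : 0 < visits b (b j t.succ) := by
    unfold visits
    rw [Finset.card_pos]
    exact ⟨(j, t), by simp⟩
  rw [← h] at h1
  unfold visits at h1
  rw [Finset.card_pos] at h1
  obtain ⟨⟨i, t'⟩, hi⟩ := h1
  simp only [Finset.mem_filter, Finset.mem_univ, true_and] at hi
  exact ⟨i, t', hi.symm⟩

omit [Fintype X] [DecidableEq X] in
theorem isPath_of_wt_ne {T : ℕ} (V : Matrix X X ℂ) (p : Pth X T) (h : wt V p ≠ 0) :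
    IsPath V p := by
  intro t ht
  apply h
  unfold wt
  exact Finset.prod_eq_zero (Finset.mem_univ t) (by simp [ht])

open Classical in
/-- The families counted with the square of the weight of the first one. -/
theorem half_bound (V : Matrix X X ℂ) (D n q T P : ℕ) [NeZero P] (s : Finset X) (κ : ℝ)
    (hκ0 : 0 ≤ κ) (hn : 1 ≤ n) (hq : 1 ≤ q) (hT : T = q * n)
    (hrow : ∀ x, ∑ y, ‖V x y‖ ^ 2 = 1) (hcol : ∀ y, ∑ x, ‖V x y‖ ^ 2 = 1)
    (hrowD : ∀ x, (Finset.univ.filter fun y => V x y ≠ 0).card ≤ D)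
    (hcolD : ∀ y, (Finset.univ.filter fun x => V x y ≠ 0).card ≤ D)
    (huniq : ∀ p p' : Pth X n, IsPath V p → IsPath V p' → p 0 = p' 0 →
      p (Fin.last n) = p' (Fin.last n) → p = p')
    (hκ : ∀ t, t ≤ T → T ≤ 2 * t → ∀ z, ∑ x ∈ s, (sqm V ^ t) x z ≤ κ ∧
      ∑ x ∈ s, (sqm V ^ t) z x ≤ κ)
    (R : (Fin P → Pth X T) → (Fin P → Pth X T) → Prop) (c : Fin P → Fin P)
    (hc : ∀ A : Set (Fin P), A.Nonempty → (∀ i ∈ A, c i ∈ A) → A = Set.univ)
    (hR : ∀ a b, R a b → (∀ j, a j 0 ∈ s) ∧ (∀ j, a j (Fin.last T) ∈ s) ∧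
      (∀ j, b j 0 = a j 0) ∧ (∀ j, b j (Fin.last T) = a (c j) (Fin.last T)) ∧
      ∀ j (t : Fin T), ∃ i, ∃ t' : Fin T, b j t.succ = a i t'.succ) :
    ∑ a : Fin P → Pth X T, ∑ b : Fin P → Pth X T,
      (if R a b ∧ ∀ j, IsPath V (b j) then ∏ j, wt V (a j) ^ 2 else 0) ≤
      ((P : ℝ) * T) ^ (q * P) *
        (s.card * (2 * (P : ℝ) ^ 2 * ((T : ℝ) + 1) ^ 2 * D * κ) ^ (P - 1)) := by
  have hT1 : 1 ≤ T := by
    rw [hT]; exact Nat.one_le_iff_ne_zero.mpr (by positivity)
  have hcn := Pool.Agent.helper54.RQ.sum_connected_le (ι := Fin P) V D T s κ hκ0 hrow hcol hrowD hcolD hκ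
  rw [Fintype.card_fin] at hcn
  refine le_trans ?_ (mul_le_mul_of_nonneg_left hcn (by positivity))
  rw [Finset.mul_sum]
  refine Finset.sum_le_sum fun a _ => ?_
  rw [← Finset.sum_filter]
  rw [Finset.sum_const, nsmul_eq_mul]
  by_cases hne : (Finset.univ.filter fun b : Fin P → Pth X T =>
      R a b ∧ ∀ j, IsPath V (b j)).Nonempty
  · obtain ⟨b, hb⟩ := hne
    simp only [Finset.mem_filter, Finset.mem_univ, true_and] at hb
    obtain ⟨h1, h2, h3, h4, h5⟩ := hR a b hb.1
    have hconn := Pool.Agent.helper17.RQ.connected_of_conf V T hT1 c hc a b hb.2 h3 h4 h5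
    rw [if_pos ⟨h1, h2, hconn⟩]
    refine mul_le_mul_of_nonneg_right ?_ (Finset.prod_nonneg fun j _ => by positivity)
    have hct := Pool.Agent.helper54.RQ.card_partner_le (ι := Fin P) V n q T hn hq hT huniq a
    rw [Fintype.card_fin] at hct
    have hsub : (Finset.univ.filter fun b : Fin P → Pth X T =>
        R a b ∧ ∀ j, IsPath V (b j)).card ≤ (P * T) ^ (q * P) := by
      refine le_trans (Finset.card_le_card ?_) hct
      intro b' hb'
      simp only [Finset.mem_filter, Finset.mem_univ, true_and] at hb' ⊢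
      obtain ⟨g1, g2, g3, g4, g5⟩ := hR a b' hb'.1
      exact ⟨hb'.2, g3, g5⟩
    calc ((Finset.univ.filter fun b : Fin P → Pth X T =>
        R a b ∧ ∀ j, IsPath V (b j)).card : ℝ) ≤ (((P * T) ^ (q * P) : ℕ) : ℝ) := by
          exact_mod_cast hsub
      _ = ((P : ℝ) * T) ^ (q * P) := by push_cast; ring
  · rw [Finset.not_nonempty_iff_eq_empty] at hne
    rw [hne]
    simp only [Finset.card_empty, Nat.cast_zero, zero_mul]
    refine mul_nonneg (by positivity) ?_
    split_ifs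
    · exact Finset.prod_nonneg fun j _ => by positivity
    · exact le_refl _

open Classical in
theorem moment_bound (V : Matrix X X ℂ) (D n q T P : ℕ) [NeZero P] (s : Finset X) (κ : ℝ)
    (hκ0 : 0 ≤ κ) (hn : 1 ≤ n) (hq : 1 ≤ q) (hT : T = q * n)
    (hrow : ∀ x, ∑ y, ‖V x y‖ ^ 2 = 1) (hcol : ∀ y, ∑ x, ‖V x y‖ ^ 2 = 1)
    (hrowD : ∀ x, (Finset.univ.filter fun y => V x y ≠ 0).card ≤ D)
    (hcolD : ∀ y, (Finset.univ.filter fun x => V x y ≠ 0).card ≤ D)
    (huniq : ∀ p p' : Pth X n, IsPath V p → IsPath V p' → p 0 = p' 0 →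
      p (Fin.last n) = p' (Fin.last n) → p = p')
    (hκ : ∀ t, t ≤ T → T ≤ 2 * t → ∀ z, ∑ x ∈ s, (sqm V ^ t) x z ≤ κ ∧
      ∑ x ∈ s, (sqm V ^ t) z x ≤ κ) :
    ∫ θ in Set.Icc (0 : X → ℝ) 1,
      (Matrix.trace ((cut s (phased V θ ^ T) * (cut s (phased V θ ^ T))ᴴ) ^ P)).re ≤
      ((P : ℝ) * T) ^ (q * P) *
        (s.card * (2 * (P : ℝ) ^ 2 * ((T : ℝ) + 1) ^ 2 * D * κ) ^ (P - 1)) := by
  refine le_trans (Pool.Agent.helper8.RQ.expected_trace_le V s T P) ?_
  set B : ℝ := ((P : ℝ) * T) ^ (q * P) *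
        (s.card * (2 * (P : ℝ) ^ 2 * ((T : ℝ) + 1) ^ 2 * D * κ) ^ (P - 1)) with hB
  -- first half
  have h1 := half_bound V D n q T P s κ hκ0 hn hq hT hrow hcol hrowD hcolD huniq hκ
    (fun a b => Conf s (finRotate P).symm a b) (finRotate P).symm
    (fun A hA h => Pool.Agent.helper17.RQ.rotate_symm_transitive P A hA h)
    (fun a b hab => ⟨hab.1, hab.2.1, hab.2.2.1, hab.2.2.2.1,
      fun j t => exists_of_visits a b hab.2.2.2.2 j t⟩)
  -- second half
  have h2 := half_bound V D n q T P s κ hκ0 hn hq hT hrow hcol hrowD hcolD huniq hκ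
    (fun b a => Conf s (finRotate P).symm a b) (finRotate P)
    (fun A hA h => Pool.Agent.helper17.RQ.rotate_transitive P A hA h)
    (fun b a hab => ⟨fun j => by rw [hab.2.2.1]; exact hab.1 j,
      fun j => by rw [hab.2.2.2.1]; exact hab.2.1 _,
      fun j => (hab.2.2.1 j).symm,
      fun j => by rw [hab.2.2.2.1, Equiv.symm_apply_apply],
      fun j t => exists_of_visits b a (fun x => (hab.2.2.2.2 x).symm) j t⟩)
  rw [← hB] at h1 h2
  rw [Finset.sum_comm] at h2
  have h3 : ∑ a : Fin P → Pth X T, ∑ b : Fin P → Pth X T,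
      (if Conf s (finRotate P).symm a b then (∏ j, wt V (a j)) * (∏ j, wt V (b j)) else 0) ≤
      ∑ a : Fin P → Pth X T, ∑ b : Fin P → Pth X T,
      ((if Conf s (finRotate P).symm a b ∧ ∀ j, IsPath V (b j) then
        ∏ j, wt V (a j) ^ 2 else 0) / 2 +
      (if Conf s (finRotate P).symm a b ∧ ∀ j, IsPath V (a j) then
        ∏ j, wt V (b j) ^ 2 else 0) / 2) := by
    refine Finset.sum_le_sum fun a _ => Finset.sum_le_sum fun b _ => ?_
    have hnn : ∀ (a : Fin P → Pth X T), 0 ≤ ∏ j, wt V (a j) ^ 2 := fun a =>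
      Finset.prod_nonneg fun j _ => by positivity
    by_cases hconf : Conf s (finRotate P).symm a b
    · rw [if_pos hconf]
      by_cases hpa : ∀ j, IsPath V (a j)
      · by_cases hpb : ∀ j, IsPath V (b j)
        · rw [if_pos ⟨hconf, hpb⟩, if_pos ⟨hconf, hpa⟩]
          rw [Finset.prod_pow, Finset.prod_pow]
          nlinarith [sq_nonneg ((∏ j, wt V (a j)) - ∏ j, wt V (b j))]
        · push Not at hpb
          obtain ⟨j, hj⟩ := hpb
          have : wt V (b j) = 0 := by
            by_contra hne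
            exact hj (isPath_of_wt_ne V _ hne)
          have hz : ∏ j, wt V (b j) = 0 := Finset.prod_eq_zero (Finset.mem_univ j) this
          rw [hz, mul_zero]
          have := hnn a
          have := hnn b
          split_ifs <;> positivity
      · push Not at hpa
        obtain ⟨j, hj⟩ := hpa
        have : wt V (a j) = 0 := by
          by_contra hne
          exact hj (isPath_of_wt_ne V _ hne)
        have hz : ∏ j, wt V (a j) = 0 := Finset.prod_eq_zero (Finset.mem_univ j) this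
        rw [hz, zero_mul]
        have := hnn a
        have := hnn b
        split_ifs <;> positivity
    · rw [if_neg hconf, if_neg (fun h => hconf h.1), if_neg (fun h => hconf h.1)]
      simp
  refine le_trans h3 ?_
  simp only [Finset.sum_add_distrib, ← Finset.sum_div]
  linarith

end Pool.Agent.helper98.RPB
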